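import Pool.Agent.N789.Kl.Growth

/-!
Joining two polyominoes with `n` cells by one cell in many ways:
`t (2 n + 1) ≥ √n t(n)²`, and the bound `t n ≤ lam ^ (n + 1) / √(2 n)`.
-/

set_option autoImplicit false

namespace Pool.Agent.Helper34.PG

open Pool.Agent.N789.Kl Relation

/-- no cell of `A` is equal or adjacent to a cell of `B` -/
def Apart (A B : Finset Cell) : Prop := ∀ a ∈ A, ∀ b ∈ B, a ≠ b ∧ ¬ Adj a b

/-- `A` and `B` are joined through the cell `c` -/
structure Joined (A B : Finset Cell) (c : Cell) : Prop where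
  apart : Apart A B
  adjA : ∃ a ∈ A, Adj a c
  memB : c + (1, 0) ∈ B
  notA : c ∉ A
  notB : c ∉ B

lemma adj_right (c : Cell) : Adj c (c + (1, 0)) := by
  right
  simp

lemma mem_rows {A : Finset Cell} {v : ℤ} : v ∈ A.image Prod.snd ↔ ∃ x, (x, v) ∈ A := by
  rw [Finset.mem_image]
  constructor
  · rintro ⟨⟨x, y⟩, h, rfl⟩
    exact ⟨x, h⟩
  · rintro ⟨x, h⟩
    exact ⟨_, h, rfl⟩

/-- existence of a join for each offset -/
lemma exists_join {A B : Finset Cell} {v : ℤ} (hA : v ∈ A.image Prod.snd) (hB : (0 : Cell) ∈ B) :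
    ∃ s c, Joined A (shift (s, v) B) c := by
  classical
  obtain ⟨x, hx⟩ := mem_rows.1 hA
  -- the finite set of the shifts which touch
  set K : Finset ℤ := (A ×ˢ B).biUnion fun p => {p.1.1 - p.2.1 - 1, p.1.1 - p.2.1,
    p.1.1 - p.2.1 + 1} with hK
  have hKmem : ∀ s, ¬ Apart A (shift (s, v) B) → s ∈ K := by
    intro s hs
    unfold Apart at hs
    push Not at hs
    obtain ⟨a, ha, b, hb, hab⟩ := hs
    rw [mem_shift] at hb
    rw [hK, Finset.mem_biUnion]
    refine ⟨(a, b - (s, v)), Finset.mem_product.2 ⟨ha, hb⟩, ?_⟩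
    simp only [Prod.fst_sub, Finset.mem_insert, Finset.mem_singleton]
    by_cases h : a = b
    · rw [h]; omega
    · have := hab h
      unfold Adj at this
      omega
  have hex : ∃ s, ¬ Apart A (shift (s, v) B) := by
    refine ⟨x, fun h => ?_⟩
    exact (h (x, v) hx (x, v) (mem_shift.2 (by simpa using hB))).1 rfl
  obtain ⟨s₀, hs₀⟩ := hex
  obtain ⟨s, hs, hmax⟩ := Finset.exists_max_image (K.filter fun s => ¬ Apart A (shift (s, v) B)) id
    ⟨s₀, Finset.mem_filter.2 ⟨hKmem s₀ hs₀, hs₀⟩⟩
  rw [Finset.mem_filter] at hs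
  have hap : Apart A (shift (s + 1, v) B) := by
    by_contra hcon
    have := hmax (s + 1) (Finset.mem_filter.2 ⟨hKmem _ hcon, hcon⟩)
    simp only [id] at this
    omega
  obtain ⟨-, hs⟩ := hs
  unfold Apart at hs
  push Not at hs
  obtain ⟨a, ha, b, hb, hab⟩ := hs
  have hb1 : b + (1, 0) ∈ shift (s + 1, v) B := by
    rw [mem_shift] at hb ⊢
    have : b + (1, 0) - (s + 1, v) = b - (s, v) := by
      ext <;> simp
    rw [this]
    exact hb
  have hbA : b ∉ A := fun h => (hap b h _ hb1).2 (adj_right b)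
  have hne : a ≠ b := by
    rintro rfl
    exact hbA ha
  refine ⟨s + 1, b, hap, ⟨a, ha, hab hne⟩, hb1, hbA, fun h => ?_⟩
  exact (hap a ha b h).2 (hab hne)

/-- a connected subset of two sets which are apart lies in one of them -/
lemma subset_or {A B S : Finset Cell} (hap : Apart A B) (hS : Conn S) (hSAB : S ⊆ A ∪ B) :
    S ⊆ A ∨ S ⊆ B := by
  classical
  by_cases h : S ∩ A = S
  · left
    rw [← h]
    exact Finset.inter_subset_right
  · by_cases h2 : (S ∩ A).Nonempty
    · exfalso
      obtain ⟨a, ha, b, hb, hab⟩ := exists_adj_cut hS Finset.inter_subset_left h2 h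
      rw [Finset.mem_inter] at ha
      rw [Finset.mem_sdiff, Finset.mem_inter] at hb
      have hbB : b ∈ B := by
        rcases Finset.mem_union.1 (hSAB hb.1) with h3 | h3
        · exact absurd ⟨hb.1, h3⟩ hb.2
        · exact h3
      exact (hap a ha.2 b hbB).2 hab
    · right
      intro x hx
      rcases Finset.mem_union.1 (hSAB hx) with h3 | h3
      · exact absurd ⟨x, Finset.mem_inter.2 ⟨hx, h3⟩⟩ h2
      · exact h3

/-- the union -/
def uni (A B : Finset Cell) (c : Cell) : Finset Cell := insert c (A ∪ B)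

lemma apart_disjoint {A B : Finset Cell} (h : Apart A B) : Disjoint A B := by
  rw [Finset.disjoint_left]
  intro x hx hx'
  exact (h x hx x hx').1 rfl

lemma conn_insert {A : Finset Cell} (hA : Conn A) {a c : Cell} (ha : a ∈ A) (h : Adj a c) :
    Conn (insert c A) := by
  have hc : Conn ({c} : Finset Cell) := by
    apply conn_of_root (r := c) (by simp)
    intro b hb
    rw [Finset.mem_singleton] at hb
    rw [hb]
  have := conn_union hA hc ha (Finset.mem_singleton_self c) h
  have e : insert c A = A ∪ {c} := by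
    ext x
    rw [Finset.mem_insert, Finset.mem_union, Finset.mem_singleton, or_comm]
  rw [e]
  exact this

lemma uni_conn {A B : Finset Cell} {c : Cell} (hA : Conn A) (hB : Conn B) (h : Joined A B c) :
    Conn (uni A B c) := by
  obtain ⟨a, ha, hac⟩ := h.adjA
  have h1 := conn_union (conn_insert hA ha hac) hB (Finset.mem_insert_self c A) h.memB
    (adj_right c)
  have e : uni A B c = insert c A ∪ B := by
    unfold uni
    ext x
    simp only [Finset.mem_insert, Finset.mem_union]
    tauto
  rw [e]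
  exact h1

lemma uni_card {A B : Finset Cell} {c : Cell} (h : Joined A B c) :
    (uni A B c).card = A.card + B.card + 1 := by
  unfold uni
  rw [Finset.card_insert_of_notMem, Finset.card_union_of_disjoint (apart_disjoint h.apart)]
  intro hc
  rcases Finset.mem_union.1 hc with h1 | h1
  · exact h.notA h1
  · exact h.notB h1

lemma uni_erase {A B : Finset Cell} {c : Cell} (h : Joined A B c) :
    (uni A B c).erase c = A ∪ B := by
  unfold uni
  rw [Finset.erase_insert]
  intro hc
  rcases Finset.mem_union.1 hc with h1 | h1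
  · exact h.notA h1
  · exact h.notB h1

/-- the joining cell is unique -/
lemma center_unique {n : ℕ} {A B A' B' : Finset Cell} {c c' : Cell} (hA : Conn A) (hB : Conn B)
    (hAn : A.card = n) (hBn : B.card = n) (hAn' : A'.card = n) (hBn' : B'.card = n)
    (h : Joined A B c) (h' : Joined A' B' c') (he : uni A B c = uni A' B' c') : c = c' := by
  classical
  by_contra hne
  have hsub : ∀ S : Finset Cell, Conn S → S.card = n + 1 → S ⊆ uni A B c → c' ∉ S → False := by
    intro S hS hSn hSU hcS
    have h1 : S ⊆ A' ∪ B' := by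
      rw [← uni_erase h', ← he]
      intro x hx
      refine Finset.mem_erase.2 ⟨?_, hSU hx⟩
      rintro rfl
      exact hcS hx
    rcases subset_or h'.apart hS h1 with h2 | h2
    · have := Finset.card_le_card h2
      omega
    · have := Finset.card_le_card h2
      omega
  have hc' : c' ∈ A ∪ B := by
    rw [← uni_erase h, he]
    exact Finset.mem_erase.2 ⟨Ne.symm hne, Finset.mem_insert_self _ _⟩
  rcases Finset.mem_union.1 hc' with h1 | h1
  · apply hsub (insert c B) (conn_insert hB h.memB (adj_right c).symm)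
    · rw [Finset.card_insert_of_notMem h.notB, hBn]
    · intro x hx
      unfold uni
      rcases Finset.mem_insert.1 hx with rfl | hx
      · exact Finset.mem_insert_self _ _
      · exact Finset.mem_insert_of_mem (Finset.mem_union_right _ hx)
    · intro h2
      rcases Finset.mem_insert.1 h2 with h2 | h2
      · exact hne h2.symm
      · exact (h.apart c' h1 c' h2).1 rfl
  · obtain ⟨a, ha, hac⟩ := h.adjA
    apply hsub (insert c A) (conn_insert hA ha hac)
    · rw [Finset.card_insert_of_notMem h.notA, hAn]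
    · intro x hx
      unfold uni
      rcases Finset.mem_insert.1 hx with rfl | hx
      · exact Finset.mem_insert_self _ _
      · exact Finset.mem_insert_of_mem (Finset.mem_union_left _ hx)
    · intro h2
      rcases Finset.mem_insert.1 h2 with h2 | h2
      · exact hne h2.symm
      · exact (h.apart c' h2 c' h1).1 rfl

/-- the two parts are determined by the union -/
lemma parts_unique {n : ℕ} {A B A' B' : Finset Cell} {c c' : Cell} (hA : Conn A) (hB : Conn B)
    (hAn : A.card = n) (hBn : B.card = n) (hAn' : A'.card = n) (hBn' : B'.card = n)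
    (h : Joined A B c) (h' : Joined A' B' c') (he : uni A B c = uni A' B' c') :
    A = A' ∧ B = B' ∧ c = c' := by
  classical
  have hc := center_unique hA hB hAn hBn hAn' hBn' h h' he
  subst hc
  have h1 : A ∪ B = A' ∪ B' := by rw [← uni_erase h, he, uni_erase h']
  have hB' : B = B' := by
    apply Finset.eq_of_subset_of_card_le
    · rcases subset_or h'.apart hB (by rw [← h1]; exact Finset.subset_union_right) with h2 | h2
      · exact absurd rfl (h'.apart _ (h2 h.memB) _ h'.memB).1
      · exact h2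
    · omega
  subst hB'
  refine ⟨?_, rfl, rfl⟩
  have e1 : A = (A ∪ B) \ B := by
    rw [Finset.union_sdiff_right, Finset.sdiff_eq_self_of_disjoint (apart_disjoint h.apart)]
  have e2 : A' = (A' ∪ B) \ B := by
    rw [Finset.union_sdiff_right, Finset.sdiff_eq_self_of_disjoint (apart_disjoint h'.apart)]
  rw [e1, h1, ← e2]

lemma shift_insert (v c : Cell) (P : Finset Cell) :
    shift v (insert c P) = insert (c + v) (shift v P) := by
  ext x
  rw [mem_shift, Finset.mem_insert, Finset.mem_insert, mem_shift]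
  constructor
  · rintro (h | h)
    · left; rw [← h]; abel
    · exact Or.inr h
  · rintro (h | h)
    · left; rw [h]; abel
    · exact Or.inr h

lemma shift_uni (v : Cell) (A B : Finset Cell) (c : Cell) :
    shift v (uni A B c) = uni (shift v A) (shift v B) (c + v) := by
  unfold uni
  rw [shift_insert, shift_union]

lemma joined_shift {A B : Finset Cell} {c : Cell} (h : Joined A B c) (v : Cell) :
    Joined (shift v A) (shift v B) (c + v) := by
  refine ⟨?_, ?_, ?_, ?_, ?_⟩
  · intro a ha b hb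
    rw [mem_shift] at ha hb
    have := h.apart _ ha _ hb
    refine ⟨fun h2 => this.1 (by rw [h2]), fun h2 => this.2 ?_⟩
    have h3 := adj_add (v := -v) h2
    simpa [sub_eq_add_neg] using h3
  · obtain ⟨a, ha, hac⟩ := h.adjA
    exact ⟨a + v, mem_shift.2 (by simpa using ha), adj_add hac⟩
  · rw [mem_shift, show c + v + (1, 0) - v = c + (1, 0) by abel]
    exact h.memB
  · rw [mem_shift, show c + v - v = c by abel]
    exact h.notA
  · rw [mem_shift, show c + v - v = c by abel]
    exact h.notB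

/-- a shift of a nonempty finite set which equals the set is trivial -/
lemma shift_eq_self {P : Finset Cell} (hP : P.Nonempty) {v : Cell} (h : shift v P = P) : v = 0 := by
  obtain ⟨x, hx, hmax⟩ := exists_lmax hP
  have h1 : x + v ∈ P := by
    rw [← h, mem_shift]
    simpa using hx
  have h2 : x - v ∈ P := by
    have : x ∈ shift v P := by rw [h]; exact hx
    rwa [mem_shift] at this
  have h3 := hmax _ h1
  have h4 := hmax _ h2
  rw [lle_iff] at h3 h4
  simp only [Prod.fst_add, Prod.snd_add, Prod.fst_sub, Prod.snd_sub] at h3 h4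
  ext
  · simp only [Prod.fst_zero]; omega
  · simp only [Prod.snd_zero]; omega

lemma shift_inj_left {P : Finset Cell} (hP : P.Nonempty) {v w : Cell} (h : shift v P = shift w P) :
    v = w := by
  have : shift (v - w) P = P := by
    have h1 : shift (-w) (shift v P) = shift (-w) (shift w P) := by rw [h]
    rw [shift_shift, shift_shift, show w + -w = 0 by abel, shift_zero] at h1
    rw [sub_eq_add_neg]
    exact h1
  have h2 := shift_eq_self hP this
  exact sub_eq_zero.1 h2

/-- **The join inequality.** -/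
theorem join_le (n : ℕ) : t n * ∑ A ∈ Tm n, (A.image Prod.snd).card ≤ t (2 * n + 1) := by
  classical
  rw [t_eq (2 * n + 1), t_eq n]
  -- the set of triples
  set W : Finset (Finset Cell × (Finset Cell × ℤ)) :=
    (Tm n).biUnion (fun A => {A} ×ˢ (Tm n ×ˢ A.image Prod.snd)) with hW
  have hWmem : ∀ w, w ∈ W ↔ w.1 ∈ Tm n ∧ w.2.1 ∈ Tm n ∧ w.2.2 ∈ w.1.image Prod.snd := by
    rintro ⟨A, B, v⟩
    rw [hW, Finset.mem_biUnion]
    constructor
    · rintro ⟨A', hA', h⟩
      rw [Finset.mem_product, Finset.mem_product, Finset.mem_singleton] at h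
      obtain ⟨h1, h2, h3⟩ := h
      simp only at h1 h2 h3
      subst h1
      exact ⟨hA', h2, h3⟩
    · rintro ⟨h1, h2, h3⟩
      refine ⟨A, h1, ?_⟩
      rw [Finset.mem_product, Finset.mem_product, Finset.mem_singleton]
      exact ⟨rfl, h2, h3⟩
  have hWcard : W.card = (Tm n).card * ∑ A ∈ Tm n, (A.image Prod.snd).card := by
    rw [hW, Finset.card_biUnion, Finset.mul_sum]
    · apply Finset.sum_congr rfl
      intro A _
      rw [Finset.card_product, Finset.card_product, Finset.card_singleton, one_mul]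
    · intro A _ A' _ hne
      change Disjoint (({A} : Finset (Finset Cell)) ×ˢ (Tm n ×ˢ A.image Prod.snd))
        (({A'} : Finset (Finset Cell)) ×ˢ (Tm n ×ˢ A'.image Prod.snd))
      rw [Finset.disjoint_left]
      intro w h1 h2
      rw [Finset.mem_product, Finset.mem_singleton] at h1 h2
      exact hne (h1.1.symm.trans h2.1)
  rw [← hWcard]
  have hj : ∀ w ∈ W, ∃ s c, Joined w.1 (shift (s, w.2.2) w.2.1) c := by
    intro w hw
    rw [hWmem] at hw
    exact exists_join hw.2.2 (mem_Tm.1 hw.2.1).2.2.1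
  choose! s c hj using hj
  have hc : ∀ w ∈ W, ∃ g, shift g (uni w.1 (shift (s w, w.2.2) w.2.1) (c w)) ∈ Tm (2 * n + 1) := by
    intro w hw
    have hw' := (hWmem w).1 hw
    have h1 := exists_canon (uni_conn (mem_Tm.1 hw'.1).2.1 (conn_shift (mem_Tm.1 hw'.2.1).2.1 _)
      (hj w hw))
    rw [uni_card (hj w hw), card_shift, (mem_Tm.1 hw'.1).1, (mem_Tm.1 hw'.2.1).1] at h1
    rwa [show n + n + 1 = 2 * n + 1 by ring] at h1
  choose! g hg using hc
  apply Finset.card_le_card_of_injOn
    (fun w => shift (g w) (uni w.1 (shift (s w, w.2.2) w.2.1) (c w)))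
  · intro w hw
    exact hg w hw
  · intro w hw w' hw' he
    rw [Finset.mem_coe] at hw hw'
    simp only at he
    have h1 := (hWmem w).1 hw
    have h2 := (hWmem w').1 hw'
    -- normalise: `uni w = shift u (uni w')`
    have he2 : uni w.1 (shift (s w, w.2.2) w.2.1) (c w) =
        shift (g w' - g w) (uni w'.1 (shift (s w', w'.2.2) w'.2.1) (c w')) := by
      have h3 : shift (-(g w)) (shift (g w) (uni w.1 (shift (s w, w.2.2) w.2.1) (c w))) =
        shift (-(g w)) (shift (g w') (uni w'.1 (shift (s w', w'.2.2) w'.2.1) (c w'))) := by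
        rw [he]
      rw [shift_shift, shift_shift, show g w + -(g w) = 0 by abel, shift_zero] at h3
      rw [sub_eq_add_neg]
      exact h3
    rw [shift_uni] at he2
    have h3 := parts_unique (n := n) (mem_Tm.1 h1.1).2.1 (conn_shift (mem_Tm.1 h1.2.1).2.1 _)
      (mem_Tm.1 h1.1).1 (by rw [card_shift]; exact (mem_Tm.1 h1.2.1).1)
      (by rw [card_shift]; exact (mem_Tm.1 h2.1).1)
      (by rw [card_shift, card_shift]; exact (mem_Tm.1 h2.2.1).1) (hj w hw)
      (joined_shift (hj w' hw') (g w' - g w)) he2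
    obtain ⟨e1, e2, -⟩ := h3
    have hA : w'.1 = w.1 := Tm_eq_of_shift h2.1 h1.1 e1
    have hu : g w' - g w = 0 := by
      rw [hA] at e1
      exact shift_eq_self (mem_Tm.1 h1.1).2.1.1 e1.symm
    rw [hu, shift_zero] at e2
    have hB : w.2.1 = w'.2.1 := by
      apply Tm_eq_of_shift h1.2.1 h2.2.1 (v := (s w, w.2.2) - (s w', w'.2.2))
      have h4 : shift (-(s w', w'.2.2)) (shift (s w, w.2.2) w.2.1) =
          shift (-(s w', w'.2.2)) (shift (s w', w'.2.2) w'.2.1) := by rw [e2]
      rw [shift_shift, shift_shift, show ((s w', w'.2.2) : Cell) + -(s w', w'.2.2) = 0 by abel,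
        shift_zero] at h4
      rw [sub_eq_add_neg]
      exact h4.symm
    rw [← hB] at e2
    have hv := shift_inj_left (mem_Tm.1 h1.2.1).2.1.1 e2
    have hv2 : w.2.2 = w'.2.2 := (Prod.mk.inj hv).2
    exact Prod.ext hA.symm (Prod.ext hB hv2)

/-! ### rows and columns -/

/-- exchange of the coordinates -/
def tr (P : Finset Cell) : Finset Cell := P.map (Equiv.prodComm ℤ ℤ).toEmbedding

lemma mem_tr {P : Finset Cell} {c : Cell} : c ∈ tr P ↔ c.swap ∈ P := by
  unfold tr
  rw [Finset.mem_map]
  constructor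
  · rintro ⟨a, ha, rfl⟩
    simpa using ha
  · intro h
    exact ⟨c.swap, h, by simp⟩

lemma card_tr (P : Finset Cell) : (tr P).card = P.card := by
  simp [tr]

lemma tr_tr (P : Finset Cell) : tr (tr P) = P := by
  ext c
  rw [mem_tr, mem_tr, Prod.swap_swap]

lemma tr_shift (v : Cell) (P : Finset Cell) : tr (shift v P) = shift v.swap (tr P) := by
  ext c
  rw [mem_tr, mem_shift, mem_shift, mem_tr]
  rfl

lemma adj_swap {c d : Cell} (h : Adj c d) : Adj c.swap d.swap := by
  unfold Adj at *
  simp only [Prod.fst_swap, Prod.snd_swap]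
  omega

lemma conn_tr {P : Finset Cell} (h : Conn P) : Conn (tr P) := by
  obtain ⟨r, hr⟩ := h.1
  apply conn_of_root (r := r.swap) (mem_tr.2 (by simpa using hr))
  intro b hb
  rw [mem_tr] at hb
  have key : ∀ z, ReflTransGen (fun c d => Adj c d ∧ c ∈ P ∧ d ∈ P) r z →
      ReflTransGen (fun c d => Adj c d ∧ c ∈ tr P ∧ d ∈ tr P) r.swap z.swap := by
    intro z h
    induction h with
    | refl => exact ReflTransGen.refl
    | @tail c d _ hcd ih =>
      exact ih.tail ⟨adj_swap hcd.1, mem_tr.2 (by simpa using hcd.2.1),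
        mem_tr.2 (by simpa using hcd.2.2)⟩
  have := key b.swap (h.2 r hr _ hb)
  simpa using this

lemma rows_shift (v : Cell) (P : Finset Cell) :
    ((shift v P).image Prod.snd).card = (P.image Prod.snd).card := by
  have : (shift v P).image Prod.snd = (P.image Prod.snd).image (fun y => y + v.2) := by
    ext y
    simp only [Finset.mem_image, mem_shift]
    constructor
    · rintro ⟨a, ha, rfl⟩
      exact ⟨_, ⟨_, ha, rfl⟩, by simp⟩
    · rintro ⟨_, ⟨a, ha, rfl⟩, rfl⟩
      exact ⟨a + v, by simpa using ha, by simp⟩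
  rw [this]
  exact Finset.card_image_of_injective _ (add_left_injective _)

lemma rows_tr (P : Finset Cell) :
    ((tr P).image Prod.snd).card = (P.image Prod.fst).card := by
  congr 1
  ext y
  simp only [Finset.mem_image, mem_tr]
  constructor
  · rintro ⟨a, ha, rfl⟩
    exact ⟨_, ha, rfl⟩
  · rintro ⟨a, ha, rfl⟩
    exact ⟨a.swap, by simpa using ha, rfl⟩

/-- the number of rows and the number of columns have the same mean -/
lemma sum_rows_eq (n : ℕ) :
    ∑ A ∈ Tm n, (A.image Prod.snd).card = ∑ A ∈ Tm n, (A.image Prod.fst).card := by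
  classical
  have hg : ∀ A ∈ Tm n, ∃ g, shift g (tr A) ∈ Tm n := by
    intro A hA
    have := exists_canon (conn_tr (mem_Tm.1 hA).2.1)
    rwa [card_tr, (mem_Tm.1 hA).1] at this
  choose! g hg using hg
  set τ : Finset Cell → Finset Cell := fun A => shift (g A) (tr A) with hτ
  have hinj : Set.InjOn τ (Tm n) := by
    intro A hA B hB h
    rw [Finset.mem_coe] at hA hB
    rw [hτ] at h
    simp only at h
    have h1 : tr (shift (g A) (tr A)) = tr (shift (g B) (tr B)) := by rw [h]
    rw [tr_shift, tr_shift, tr_tr, tr_tr] at h1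
    apply Tm_eq_of_shift hA hB (v := (g A).swap - (g B).swap)
    have h2 : shift (-(g B).swap) (shift (g A).swap A) =
        shift (-(g B).swap) (shift (g B).swap B) := by rw [h1]
    rw [shift_shift, shift_shift, show (g B).swap + -(g B).swap = 0 by abel, shift_zero] at h2
    rw [sub_eq_add_neg]
    exact h2.symm
  have himg : (Tm n).image τ = Tm n := by
    apply Finset.eq_of_subset_of_card_le
    · intro B hB
      obtain ⟨A, hA, rfl⟩ := Finset.mem_image.1 hB
      exact hg A hA
    · rw [Finset.card_image_of_injOn hinj]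
  calc ∑ A ∈ Tm n, (A.image Prod.snd).card
      = ∑ A ∈ (Tm n).image τ, (A.image Prod.snd).card := by rw [himg]
    _ = ∑ A ∈ Tm n, ((τ A).image Prod.snd).card := Finset.sum_image hinj
    _ = ∑ A ∈ Tm n, (A.image Prod.fst).card := by
        apply Finset.sum_congr rfl
        intro A _
        rw [hτ]
        simp only
        rw [rows_shift, rows_tr]

lemma card_le_rows (A : Finset Cell) :
    A.card ≤ (A.image Prod.fst).card * (A.image Prod.snd).card := by
  rw [← Finset.card_product]
  apply Finset.card_le_card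
  intro c hc
  exact Finset.mem_product.2 ⟨Finset.mem_image_of_mem _ hc, Finset.mem_image_of_mem _ hc⟩

/-- the mean number of rows is at least `√n` -/
lemma sqrt_le_sum (n : ℕ) :
    √(n : ℝ) * t n ≤ ∑ A ∈ Tm n, ((A.image Prod.snd).card : ℝ) := by
  have h1 : ∑ A ∈ Tm n, (((A.image Prod.snd).card : ℝ) + (A.image Prod.fst).card) =
      2 * ∑ A ∈ Tm n, ((A.image Prod.snd).card : ℝ) := by
    rw [Finset.sum_add_distrib]
    have : ∑ A ∈ Tm n, ((A.image Prod.fst).card : ℝ) = ∑ A ∈ Tm n, ((A.image Prod.snd).card : ℝ) := by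
      exact_mod_cast (sum_rows_eq n).symm
    rw [this]
    ring
  have h2 : ∀ A ∈ Tm n, 2 * √(n : ℝ) ≤
      ((A.image Prod.snd).card : ℝ) + (A.image Prod.fst).card := by
    intro A hA
    have h3 : (n : ℝ) ≤ ((A.image Prod.fst).card : ℝ) * (A.image Prod.snd).card := by
      have := card_le_rows A
      rw [(mem_Tm.1 hA).1] at this
      exact_mod_cast this
    have h4 : (0 : ℝ) ≤ ((A.image Prod.fst).card : ℝ) := Nat.cast_nonneg _
    have h5 : (0 : ℝ) ≤ ((A.image Prod.snd).card : ℝ) := Nat.cast_nonneg _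
    have h6 : √(n : ℝ) ≤ (((A.image Prod.snd).card : ℝ) + (A.image Prod.fst).card) / 2 := by
      apply Real.sqrt_le_iff.2
      refine ⟨by positivity, ?_⟩
      nlinarith [sq_nonneg (((A.image Prod.snd).card : ℝ) - (A.image Prod.fst).card)]
    linarith
  have h3 := Finset.card_nsmul_le_sum (Tm n) _ _ h2
  rw [h1, nsmul_eq_mul, ← t_eq] at h3
  linarith

/-- **The quadratic inequality.** -/
theorem sqrt_mul_sq_le (n : ℕ) : √(n : ℝ) * (t n : ℝ) ^ 2 ≤ t (2 * n + 1) := by
  have h1 : (t n : ℝ) * ∑ A ∈ Tm n, ((A.image Prod.snd).card : ℝ) ≤ t (2 * n + 1) := by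
    exact_mod_cast join_le n
  have h2 := mul_le_mul_of_nonneg_left (sqrt_le_sum n) (Nat.cast_nonneg (t n) : (0 : ℝ) ≤ t n)
  calc √(n : ℝ) * (t n : ℝ) ^ 2 = t n * (√(n : ℝ) * t n) := by ring
    _ ≤ _ := h2.trans h1

/-- the normalised numbers -/
noncomputable def nn (n : ℕ) : ℝ := √(2 * n : ℝ) * t n / lam ^ (n + 1)

lemma nn_nonneg (n : ℕ) : 0 ≤ nn n := by
  have := lam_pos
  unfold nn
  positivity

lemma nn_sq_le (n : ℕ) : nn n ^ 2 ≤ nn (2 * n + 1) := by
  have hl := lam_pos
  have h1 := sqrt_mul_sq_le n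
  unfold nn
  rw [div_pow, div_le_div_iff₀ (by positivity) (by positivity)]
  have e1 : (lam ^ (n + 1)) ^ 2 = lam ^ (2 * n + 1 + 1) := by rw [← pow_mul]; congr 1; ring
  rw [e1]
  apply mul_le_mul_of_nonneg_right _ (by positivity)
  have h2 : (√(2 * n : ℝ) * t n) ^ 2 = (2 * √(n : ℝ)) * (√(n : ℝ) * (t n : ℝ) ^ 2) := by
    rw [mul_pow, Real.sq_sqrt (by positivity)]
    have := Real.mul_self_sqrt (Nat.cast_nonneg n : (0 : ℝ) ≤ n)
    calc 2 * (n : ℝ) * (t n : ℝ) ^ 2 = 2 * (√(n : ℝ) * √(n : ℝ)) * (t n : ℝ) ^ 2 := by rw [this]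
      _ = _ := by ring
  rw [h2]
  apply mul_le_mul _ h1 (by positivity) (by positivity)
  apply Real.le_sqrt_of_sq_le
  rw [mul_pow, Real.sq_sqrt (Nat.cast_nonneg n)]
  push_cast
  linarith

lemma nn_le_sqrt (n : ℕ) : nn n ≤ √(2 * n : ℝ) := by
  have hl := lam_pos
  unfold nn
  rw [div_le_iff₀ (by positivity)]
  apply mul_le_mul_of_nonneg_left _ (by positivity)
  calc (t n : ℝ) ≤ lam ^ n := t_le_lam n
    _ ≤ lam ^ (n + 1) := pow_le_pow_right₀ one_le_lam (Nat.le_succ n)

lemma nn_iter (n k : ℕ) : nn n ^ (2 ^ k) ≤ nn (2 ^ k * (n + 1) - 1) := by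
  induction k with
  | zero => simp
  | succ k ih =>
    have e1 : 2 ^ (k + 1) * (n + 1) - 1 = 2 * (2 ^ k * (n + 1) - 1) + 1 := by
      have : 1 ≤ 2 ^ k * (n + 1) := Nat.mul_pos (by positivity) (by omega)
      rw [pow_succ]
      have e : 2 ^ k * 2 * (n + 1) = 2 * (2 ^ k * (n + 1)) := by ring
      rw [e]
      omega
    rw [e1]
    refine le_trans ?_ (nn_sq_le _)
    rw [pow_succ, pow_mul]
    exact pow_le_pow_left₀ (pow_nonneg (nn_nonneg n) _) ih 2

theorem nn_le_one (n : ℕ) : nn n ≤ 1 := by
  by_contra hcon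
  push Not at hcon
  obtain ⟨d, hd⟩ : ∃ d, d = nn n - 1 := ⟨_, rfl⟩
  have hd0 : 0 < d := by linarith
  have key : ∀ k : ℕ, (2 : ℝ) ^ k * d ^ 2 ≤ 2 * (n + 1) := by
    intro k
    have h1 := nn_iter n k
    have h2 := nn_le_sqrt (2 ^ k * (n + 1) - 1)
    have h3 : 1 + ((2 ^ k : ℕ) : ℝ) * d ≤ nn n ^ (2 ^ k) := by
      have := one_add_mul_le_pow (a := d) (by linarith) (2 ^ k)
      rw [show 1 + d = nn n by linarith] at this
      exact this
    have h4 : (2 ^ k * d) ^ 2 ≤ 2 * ((2 ^ k : ℝ) * (n + 1)) := by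
      have h5 : (2 : ℝ) ^ k * d ≤ √(2 * ((2 ^ k * (n + 1) - 1 : ℕ) : ℝ)) := by
        push_cast at h3
        linarith
      have h6 : √(2 * ((2 ^ k * (n + 1) - 1 : ℕ) : ℝ)) ≤ √(2 * ((2 ^ k : ℝ) * (n + 1))) := by
        apply Real.sqrt_le_sqrt
        have : ((2 ^ k * (n + 1) - 1 : ℕ) : ℝ) ≤ ((2 ^ k * (n + 1) : ℕ) : ℝ) := by
          exact_mod_cast Nat.sub_le _ _
        push_cast at this
        linarith
      have h7 := pow_le_pow_left₀ (by positivity) (h5.trans h6) 2
      rwa [Real.sq_sqrt (by positivity)] at h7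
    have h5 : (0 : ℝ) < 2 ^ k := by positivity
    have h6 : (2 : ℝ) ^ k * (2 ^ k * d ^ 2) ≤ 2 ^ k * (2 * (n + 1)) := by nlinarith
    exact le_of_mul_le_mul_left h6 h5
  obtain ⟨k, hk⟩ := pow_unbounded_of_one_lt (2 * (n + 1) / d ^ 2) (by norm_num : (1 : ℝ) < 2)
  rw [div_lt_iff₀ (by positivity)] at hk
  linarith [key k]

/-- **The bound.** -/
theorem t_bound (n : ℕ) : √(2 * n : ℝ) * t n ≤ lam ^ (n + 1) := by
  have hl := lam_pos
  have h := nn_le_one n
  unfold nn at h
  rwa [div_le_one (by positivity)] at h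

end Pool.Agent.Helper34.PG
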