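import Mathlib

/-!
Power series with nonnegative coefficients: the theorem of Vivanti and Pringsheim and a criterion
for the absence of a meromorphic continuation to a neighbourhood of the radius of convergence.
-/

set_option autoImplicit false

namespace Pool.Agent.Helper34.PG

open Filter Topology Metric Set
open scoped ComplexOrder

/-- the sum of the power series -/
noncomputable def S (a : ℕ → ℝ) (z : ℂ) : ℂ := ∑' n, (a n : ℂ) * z ^ n

variable {a : ℕ → ℝ} {x₀ : ℝ}

lemma summable_norm (ha : ∀ n, 0 ≤ a n) (hs : ∀ x : ℝ, 0 ≤ x → x < x₀ → Summable fun n => a n * x ^ n)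
    {z : ℂ} (hz : ‖z‖ < x₀) : Summable fun n => ‖(a n : ℂ) * z ^ n‖ := by
  have h := hs ‖z‖ (norm_nonneg _) hz
  refine h.congr fun n => ?_
  rw [norm_mul, norm_pow, Complex.norm_real, Real.norm_of_nonneg (ha n)]

lemma hasFPS (hx₀ : 0 < x₀) (ha : ∀ n, 0 ≤ a n)
    (hs : ∀ x : ℝ, 0 ≤ x → x < x₀ → Summable fun n => a n * x ^ n) :
    HasFPowerSeriesOnBall (S a) (FormalMultilinearSeries.ofScalars ℂ fun n => (a n : ℂ)) 0
      (ENNReal.ofReal x₀) := by
  refine ⟨?_, by simpa using hx₀, ?_⟩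
  · apply ENNReal.le_of_forall_nnreal_lt
    intro r hr
    apply FormalMultilinearSeries.le_radius_of_summable
    have hr' : (r : ℝ) < x₀ := by
      rw [← ENNReal.ofReal_coe_nnreal] at hr
      exact (ENNReal.ofReal_lt_ofReal_iff hx₀).1 hr
    refine (hs r r.2 hr').congr fun n => ?_
    rw [FormalMultilinearSeries.ofScalars_norm, Complex.norm_real, Real.norm_of_nonneg (ha n)]
  · intro y hy
    have hy' : ‖y‖ < x₀ := by
      rw [Metric.mem_eball, edist_zero_right] at hy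
      rw [← ofReal_norm] at hy
      exact (ENNReal.ofReal_lt_ofReal_iff hx₀).1 hy
    have h1 := (summable_norm ha hs hy').of_norm.hasSum
    rw [zero_add]
    unfold S
    convert h1 using 1
    funext n
    rw [FormalMultilinearSeries.ofScalars_apply_eq, smul_eq_mul]

lemma S_diff (hx₀ : 0 < x₀) (ha : ∀ n, 0 ≤ a n)
    (hs : ∀ x : ℝ, 0 ≤ x → x < x₀ → Summable fun n => a n * x ^ n) :
    DifferentiableOn ℂ (S a) (ball 0 x₀) := by
  have h := (hasFPS hx₀ ha hs).differentiableOn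
  rwa [Metric.eball_ofReal] at h

lemma S_deriv_zero (hx₀ : 0 < x₀) (ha : ∀ n, 0 ≤ a n)
    (hs : ∀ x : ℝ, 0 ≤ x → x < x₀ → Summable fun n => a n * x ^ n) (n : ℕ) :
    0 ≤ iteratedDeriv n (S a) 0 := by
  have h1 := (hasFPS hx₀ ha hs).hasFPowerSeriesAt
  have h2 := (h1.analyticAt).hasFPowerSeriesAt
  have h3 := h1.eq_formalMultilinearSeries h2
  have h4 := congrArg (fun p => FormalMultilinearSeries.coeff p n) h3
  simp only [FormalMultilinearSeries.coeff_ofScalars] at h4
  have h5 : (n.factorial : ℂ) ≠ 0 := by exact_mod_cast n.factorial_ne_zero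
  rw [eq_div_iff h5] at h4
  rw [← h4]
  have h6 : (0 : ℝ) ≤ a n * n.factorial := mul_nonneg (ha n) (Nat.cast_nonneg _)
  exact_mod_cast h6

lemma S_deriv_nonneg (hx₀ : 0 < x₀) (ha : ∀ n, 0 ≤ a n)
    (hs : ∀ x : ℝ, 0 ≤ x → x < x₀ → Summable fun n => a n * x ^ n) (k : ℕ) {x : ℝ} (hx : 0 ≤ x)
    (hxx : x < x₀) : 0 ≤ iteratedDeriv k (S a) (x : ℂ) := by
  have hd : DifferentiableOn ℂ (iteratedDeriv k (S a)) (ball 0 x₀) := by
    have h1 : AnalyticOnNhd ℂ (S a) (ball 0 x₀) :=
      (S_diff hx₀ ha hs).analyticOnNhd isOpen_ball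
    rw [iteratedDeriv_eq_iterate]
    exact (h1.iterated_deriv k).differentiableOn
  refine hd.nonneg_of_iteratedDeriv_nonneg (fun n => ?_) (by exact_mod_cast hx) ?_
  · have : iteratedDeriv n (iteratedDeriv k (S a)) = iteratedDeriv (n + k) (S a) := by
      rw [iteratedDeriv_eq_iterate, iteratedDeriv_eq_iterate, iteratedDeriv_eq_iterate,
        Function.iterate_add_apply]
    rw [this]
    exact S_deriv_zero hx₀ ha hs _
  · rw [mem_ball_zero_iff, Complex.norm_real, Real.norm_of_nonneg hx]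
    exact hxx

/-- **The theorem of Vivanti and Pringsheim.** -/
theorem pringsheim (hx₀ : 0 < x₀) (ha : ∀ n, 0 ≤ a n)
    (hs : ∀ x : ℝ, 0 ≤ x → x < x₀ → Summable fun n => a n * x ^ n) {h : ℂ → ℂ}
    (hh : AnalyticAt ℂ h (x₀ : ℂ)) (he : ∀ᶠ x : ℝ in 𝓝[<] x₀, h x = S a x) :
    ∃ x, x₀ < x ∧ Summable fun n => a n * x ^ n := by
  obtain ⟨r, hr, hdiff⟩ : ∃ r > 0, DifferentiableOn ℂ h (ball (x₀ : ℂ) r) := by
    obtain ⟨r, hr, h1⟩ := Metric.eventually_nhds_iff_ball.1 hh.eventually_analyticAt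
    exact ⟨r, hr, fun z hz => (h1 z hz).differentiableAt.differentiableWithinAt⟩
  obtain ⟨e, he0, he⟩ : ∃ e < x₀, ∀ x ∈ Ioo e x₀, h x = S a x :=
    (mem_nhdsLT_iff_exists_Ioo_subset).1 he
  -- the base point
  obtain ⟨d, hd0, hd1, hd2, hd3⟩ : ∃ d : ℝ, 0 < d ∧ 3 * d ≤ r ∧ d < x₀ - e ∧ d < x₀ := by
    refine ⟨min (r / 3) (min ((x₀ - e) / 2) (x₀ / 2)), ?_, ?_, ?_, ?_⟩
    · apply lt_min (by positivity) (lt_min (by linarith) (by linarith))
    · have := min_le_left (r / 3) (min ((x₀ - e) / 2) (x₀ / 2))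
      linarith
    · have := (min_le_right (r / 3) (min ((x₀ - e) / 2) (x₀ / 2))).trans (min_le_left _ _)
      linarith
    · have := (min_le_right (r / 3) (min ((x₀ - e) / 2) (x₀ / 2))).trans (min_le_right _ _)
      linarith
  obtain ⟨x₁, hx₁⟩ : ∃ x₁, x₁ = x₀ - d := ⟨_, rfl⟩
  have hx1 : 0 < x₁ := by linarith
  have hx1' : x₁ < x₀ := by linarith
  have hsub : ball (x₁ : ℂ) (2 * d) ⊆ ball (x₀ : ℂ) r := by
    apply ball_subset_ball'
    rw [dist_comm, Complex.dist_eq]
    have : (x₀ : ℂ) - (x₁ : ℂ) = (d : ℝ) := by rw [hx₁]; push_cast; ring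
    rw [this, Complex.norm_real, Real.norm_of_nonneg hd0.le]
    linarith
  -- `h` and `S a` agree near `x₁`
  have hSan : AnalyticAt ℂ (S a) (x₁ : ℂ) := by
    apply (S_diff hx₀ ha hs).analyticAt
    apply isOpen_ball.mem_nhds
    rw [mem_ball_zero_iff, Complex.norm_real, Real.norm_of_nonneg hx1.le]
    exact hx1'
  have hhan : AnalyticAt ℂ h (x₁ : ℂ) := by
    apply hdiff.analyticAt
    apply isOpen_ball.mem_nhds
    exact hsub (mem_ball_self (by linarith))
  have hloc : h =ᶠ[𝓝 (x₁ : ℂ)] S a := by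
    rw [EventuallyEq, ← hhan.frequently_eq_iff_eventually_eq hSan]
    have h1 : Tendsto (fun x : ℝ => (x : ℂ)) (𝓝[≠] x₁) (𝓝[≠] (x₁ : ℂ)) := by
      apply tendsto_nhdsWithin_of_tendsto_nhds_of_eventually_within
      · exact (Complex.continuous_ofReal.tendsto x₁).mono_left nhdsWithin_le_nhds
      · filter_upwards [self_mem_nhdsWithin] with x hx
        simpa using hx
    have h2 : ∀ᶠ x : ℝ in 𝓝[≠] x₁, h x = S a x := by
      apply mem_nhdsWithin_of_mem_nhds
      filter_upwards [Ioo_mem_nhds (show e < x₁ by linarith) hx1'] with x hx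
      exact he x hx
    exact h1.frequently h2.frequently
  refine ⟨x₀ + d / 2, by linarith, ?_⟩
  have hpart : ∀ N : ℕ, ∑ n ∈ Finset.range N, a n * (x₀ + d / 2) ^ n ≤
      (h ((x₀ + d / 2 : ℝ) : ℂ)).re := by
    intro N
    -- the tail and the partial sum
    set b : ℕ → ℝ := fun n => if n < N then 0 else a n with hb
    have hb0 : ∀ n, 0 ≤ b n := by
      intro n
      rw [hb]
      simp only
      split_ifs
      · exact le_rfl
      · exact ha n
    have hbs : ∀ x : ℝ, 0 ≤ x → x < x₀ → Summable fun n => b n * x ^ n := by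
      intro x hx hxx
      apply Summable.of_nonneg_of_le (fun n => mul_nonneg (hb0 n) (pow_nonneg hx n)) _ (hs x hx hxx)
      intro n
      apply mul_le_mul_of_nonneg_right _ (pow_nonneg hx n)
      rw [hb]
      simp only
      split_ifs
      · exact ha n
      · exact le_rfl
    set F : ℂ → ℂ := fun z => ∑ n ∈ Finset.range N, (a n : ℂ) * z ^ n with hF
    have hFd : Differentiable ℂ F := by
      rw [hF]
      fun_prop
    have hsplit : ∀ z : ℂ, ‖z‖ < x₀ → S a z - F z = S b z := by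
      intro z hz
      have h1 := (summable_norm ha hs hz).of_norm
      have h2 := (summable_norm hb0 hbs hz).of_norm
      have h3 : S a z = F z + ∑' n, (a (n + N) : ℂ) * z ^ (n + N) :=
        (h1.sum_add_tsum_nat_add N).symm
      have h4 : S b z = ∑ n ∈ Finset.range N, (b n : ℂ) * z ^ n +
          ∑' n, (b (n + N) : ℂ) * z ^ (n + N) := (h2.sum_add_tsum_nat_add N).symm
      have h5 : ∑ n ∈ Finset.range N, (b n : ℂ) * z ^ n = 0 := by
        apply Finset.sum_eq_zero
        intro n hn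
        rw [hb]
        simp [Finset.mem_range.1 hn]
      have h6 : ∀ n, b (n + N) = a (n + N) := by
        intro n
        rw [hb]
        simp
      rw [h5, zero_add] at h4
      simp only [h6] at h4
      rw [h3, h4]
      ring
    have hu : DifferentiableOn ℂ (fun z => h z - F z) (ball (x₁ : ℂ) (2 * d)) :=
      (hdiff.mono hsub).sub hFd.differentiableOn
    have hloc2 : (fun z => h z - F z) =ᶠ[𝓝 (x₁ : ℂ)] S b := by
      have h7 : ∀ᶠ z : ℂ in 𝓝 (x₁ : ℂ), ‖z‖ < x₀ := by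
        have : ball (0 : ℂ) x₀ ∈ 𝓝 (x₁ : ℂ) := by
          apply isOpen_ball.mem_nhds
          rw [mem_ball_zero_iff, Complex.norm_real, Real.norm_of_nonneg hx1.le]
          exact hx1'
        filter_upwards [this] with z hz
        rwa [mem_ball_zero_iff] at hz
      filter_upwards [hloc, h7] with z hz hz'
      rw [hz]
      exact hsplit z hz'
    have hpos := hu.nonneg_of_iteratedDeriv_nonneg (z := ((x₀ + d / 2 : ℝ) : ℂ)) (fun n => by
      rw [(hloc2.iteratedDeriv n).eq_of_nhds]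
      exact S_deriv_nonneg hx₀ hb0 hbs n hx1.le hx1')
      (by exact_mod_cast (by linarith : x₁ ≤ x₀ + d / 2)) (by
        rw [mem_ball, Complex.dist_eq]
        have : ((x₀ + d / 2 : ℝ) : ℂ) - (x₁ : ℂ) = ((3 * d / 2 : ℝ) : ℂ) := by
          rw [hx₁]; push_cast; ring
        rw [this, Complex.norm_real, Real.norm_of_nonneg (by linarith)]
        linarith)
    have hre := (Complex.le_def.1 hpos).1
    rw [Complex.zero_re, Complex.sub_re] at hre
    have hFre : (F ((x₀ + d / 2 : ℝ) : ℂ)).re =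
        ∑ n ∈ Finset.range N, a n * (x₀ + d / 2) ^ n := by
      have : F ((x₀ + d / 2 : ℝ) : ℂ) =
          ((∑ n ∈ Finset.range N, a n * (x₀ + d / 2) ^ n : ℝ) : ℂ) := by
        rw [hF]
        push_cast
        rfl
      rw [this, Complex.ofReal_re]
    rw [hFre] at hre
    linarith
  apply summable_of_sum_range_le (c := (h ((x₀ + d / 2 : ℝ) : ℂ)).re)
  · intro n
    exact mul_nonneg (ha n) (pow_nonneg (by linarith) n)
  · exact hpart

/-- A power series with nonnegative coefficients and radius of convergence `x₀`, such that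
`(x₀ - x) S x → 0`, has no meromorphic continuation to a neighbourhood of `x₀`. -/
theorem no_mero (hx₀ : 0 < x₀) (ha : ∀ n, 0 ≤ a n)
    (hs : ∀ x : ℝ, 0 ≤ x → x < x₀ → Summable fun n => a n * x ^ n)
    (hd : ∀ x : ℝ, x₀ < x → ¬ Summable fun n => a n * x ^ n)
    (h0 : Tendsto (fun x : ℝ => ((x₀ - x : ℝ) : ℂ) * S a x) (𝓝[<] x₀) (𝓝 0)) {g : ℂ → ℂ}
    (hg : MeromorphicAt g (x₀ : ℂ)) : ¬ ∀ᶠ x : ℝ in 𝓝[<] x₀, g x = S a x := by
  intro he
  have hmap : Tendsto (fun x : ℝ => (x : ℂ)) (𝓝[<] x₀) (𝓝[≠] (x₀ : ℂ)) := by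
    apply tendsto_nhdsWithin_of_tendsto_nhds_of_eventually_within
    · exact (Complex.continuous_ofReal.tendsto x₀).mono_left nhdsWithin_le_nhds
    · filter_upwards [self_mem_nhdsWithin] with x hx
      have : x ≠ x₀ := (mem_Iio.1 hx).ne
      simpa using this
  -- an analytic continuation gives a contradiction
  have key : ∀ h : ℂ → ℂ, AnalyticAt ℂ h (x₀ : ℂ) → (∀ᶠ x : ℝ in 𝓝[<] x₀, h x = S a x) →
      False := by
    intro h hh hhe
    obtain ⟨x, hx, hx'⟩ := pringsheim hx₀ ha hs hh hhe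
    exact hd x hx hx'
  by_cases htop : meromorphicOrderAt g (x₀ : ℂ) = ⊤
  · rw [meromorphicOrderAt_eq_top_iff] at htop
    apply key (fun _ => 0) analyticAt_const
    filter_upwards [hmap.eventually htop, he] with x h1 h2
    rw [← h2, h1]
  · obtain ⟨m, hm⟩ := WithTop.ne_top_iff_exists.1 htop
    obtain ⟨h, hh, hh0, hhe⟩ := (meromorphicOrderAt_eq_int_iff hg).1 hm.symm
    rcases lt_or_ge m 0 with hneg | hpos
    · -- a pole
      have h1 : Tendsto (fun x : ℝ => h x) (𝓝[<] x₀) (𝓝 (h x₀)) :=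
        (hh.continuousAt.tendsto.mono_left nhdsWithin_le_nhds).comp hmap
      have h2 : Tendsto (fun x : ℝ => ‖h x‖) (𝓝[<] x₀) (𝓝 ‖h x₀‖) := h1.norm
      have h3 : Tendsto (fun x : ℝ => ‖((x₀ - x : ℝ) : ℂ) * S a x‖) (𝓝[<] x₀) (𝓝 0) := by
        simpa using h0.norm
      have h4 : ∀ᶠ x : ℝ in 𝓝[<] x₀, ‖h x‖ ≤ ‖((x₀ - x : ℝ) : ℂ) * S a x‖ := by
        have h5 : ∀ᶠ x : ℝ in 𝓝[<] x₀, x₀ - 1 < x :=
          mem_nhdsWithin_of_mem_nhds (lt_mem_nhds (by linarith))
        filter_upwards [hmap.eventually hhe, he, self_mem_nhdsWithin, h5] with x e1 e2 e3 e4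
        have e3' : x < x₀ := e3
        rw [← e2, e1, smul_eq_mul, norm_mul, norm_mul, ← mul_assoc, norm_zpow]
        have e5 : ‖((x₀ - x : ℝ) : ℂ)‖ = x₀ - x := by
          rw [Complex.norm_real, Real.norm_of_nonneg (by linarith)]
        have e6 : ‖(x : ℂ) - (x₀ : ℂ)‖ = x₀ - x := by
          rw [← Complex.ofReal_sub, Complex.norm_real, Real.norm_eq_abs, abs_sub_comm,
            abs_of_nonneg (by linarith)]
        rw [e5, e6]
        have e7 : 1 ≤ (x₀ - x) * (x₀ - x) ^ m := by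
          have e8 : (x₀ - x) * (x₀ - x) ^ m = (x₀ - x) ^ (m + 1) := by
            rw [zpow_add₀ (by linarith : x₀ - x ≠ 0), zpow_one, mul_comm]
          rw [e8]
          obtain ⟨k, hk⟩ : ∃ k : ℕ, m + 1 = -(k : ℤ) := ⟨(-(m + 1)).toNat, by omega⟩
          rw [hk, zpow_neg, zpow_natCast]
          apply (one_le_inv₀ (pow_pos (by linarith) k)).2
          exact pow_le_one₀ (by linarith) (by linarith)
        calc ‖h x‖ = 1 * ‖h x‖ := (one_mul _).symm
          _ ≤ _ := mul_le_mul_of_nonneg_right e7 (norm_nonneg _)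
      have h5 : ‖h x₀‖ ≤ 0 := le_of_tendsto_of_tendsto h2 h3 h4
      exact hh0 (norm_le_zero_iff.1 h5)
    · obtain ⟨k, rfl⟩ := Int.eq_ofNat_of_zero_le hpos
      apply key (fun z => (z - x₀) ^ k * h z) (by fun_prop)
      filter_upwards [hmap.eventually hhe, he] with x e1 e2
      rw [← e2, e1, zpow_natCast, smul_eq_mul]

end Pool.Agent.Helper34.PG
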