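import Pool.Agent.Helper34.PG.Join
import Pool.Agent.Helper34.PG.Mero

/-!
The generating functions of polyominoes are not meromorphic at `1 / lam`.
-/

set_option autoImplicit false

namespace Pool.Agent.Helper34.PG

open Filter Topology Metric Set Pool.Agent.N789.Kl

/-- a rational power series satisfies its functional equation at the points of convergence -/
lemma rat_eval {u : ℕ → ℂ} {P Q : Polynomial ℂ}
    (h : (Q : PowerSeries ℂ) * PowerSeries.mk u = P) {w : ℂ}
    (hw : Summable fun n => ‖u n * w ^ n‖) : Q.eval w * ∑' n, u n * w ^ n = P.eval w := by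
  have hpoly : ∀ R : Polynomial ℂ, HasSum (fun n => R.coeff n * w ^ n) (R.eval w) := by
    intro R
    rw [Polynomial.eval_eq_sum_range]
    apply hasSum_sum_of_ne_finset_zero
    intro n hn
    rw [Finset.mem_range, not_lt] at hn
    rw [Polynomial.coeff_eq_zero_of_natDegree_lt (by omega), zero_mul]
  have hQ : Summable fun n => ‖Q.coeff n * w ^ n‖ := by
    apply summable_of_ne_finset_zero (s := Finset.range (Q.natDegree + 1))
    intro n hn
    rw [Finset.mem_range, not_lt] at hn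
    rw [Polynomial.coeff_eq_zero_of_natDegree_lt (by omega), zero_mul, norm_zero]
  rw [← (hpoly Q).tsum_eq, ← (hpoly P).tsum_eq,
    tsum_mul_tsum_eq_tsum_sum_antidiagonal_of_summable_norm hQ hw]
  apply tsum_congr
  intro n
  have h1 := congrArg (PowerSeries.coeff n) h
  rw [PowerSeries.coeff_mul, Polynomial.coeff_coe] at h1
  rw [← h1, Finset.sum_mul]
  apply Finset.sum_congr rfl
  intro p hp
  rw [Finset.HasAntidiagonal.mem_antidiagonal] at hp
  rw [Polynomial.coeff_coe, PowerSeries.coeff_mk, ← hp, pow_add]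
  ring

lemma inv_lam_pos : 0 < 1 / lam := by
  have := lam_pos
  positivity

/-- coefficients which are small at the radius of convergence -/
lemma tendsto_mul_S {a : ℕ → ℝ} {x₀ : ℝ} (hx₀ : 0 < x₀) (ha : ∀ n, 0 ≤ a n)
    (h : Tendsto (fun n => a n * x₀ ^ n) atTop (𝓝 0)) :
    Tendsto (fun x : ℝ => (x₀ - x) * ∑' n, a n * x ^ n) (𝓝[<] x₀) (𝓝 0) := by
  rw [Metric.tendsto_nhds]
  intro e he
  -- the tail
  have h1 : ∀ᶠ n in atTop, a n * x₀ ^ n < e / (2 * x₀) :=
    h.eventually (gt_mem_nhds (by positivity))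
  obtain ⟨N, hN⟩ := eventually_atTop.1 h1
  obtain ⟨C, hC⟩ : ∃ C, C = ∑ n ∈ Finset.range N, a n * x₀ ^ n := ⟨_, rfl⟩
  have hC0 : 0 ≤ C := by
    rw [hC]
    exact Finset.sum_nonneg fun n _ => mul_nonneg (ha n) (by positivity)
  have h2 : ∀ᶠ x : ℝ in 𝓝[<] x₀, x₀ - e / (2 * (C + 1)) < x :=
    mem_nhdsWithin_of_mem_nhds (lt_mem_nhds (by
      have : 0 < e / (2 * (C + 1)) := by positivity
      linarith))
  have h3 : ∀ᶠ x : ℝ in 𝓝[<] x₀, 0 < x := mem_nhdsWithin_of_mem_nhds (lt_mem_nhds hx₀)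
  filter_upwards [h2, h3, self_mem_nhdsWithin] with x hx hx0 hxx
  have hxx' : x < x₀ := hxx
  have hq0 : 0 ≤ x / x₀ := by positivity
  have hq1 : x / x₀ < 1 := (div_lt_one hx₀).2 hxx'
  have hb : ∀ n, a n * x ^ n = (a n * x₀ ^ n) * (x / x₀) ^ n := by
    intro n
    rw [div_pow]
    field_simp
  have hgeo := summable_geometric_of_lt_one hq0 hq1
  have hle : ∀ n, a (n + N) * x ^ (n + N) ≤ e / (2 * x₀) * (x / x₀) ^ n := by
    intro n
    rw [hb (n + N), pow_add (x / x₀)]
    have e1 := (hN (n + N) (by omega)).le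
    have e2 : (x / x₀) ^ N ≤ 1 := pow_le_one₀ hq0 hq1.le
    have e3 : 0 ≤ (x / x₀) ^ n := by positivity
    calc a (n + N) * x₀ ^ (n + N) * ((x / x₀) ^ n * (x / x₀) ^ N)
        ≤ e / (2 * x₀) * ((x / x₀) ^ n * 1) := by
          apply mul_le_mul e1 _ (by positivity) (by positivity)
          exact mul_le_mul_of_nonneg_left e2 e3
      _ = _ := by ring
  have hsN : Summable fun n => a (n + N) * x ^ (n + N) :=
    Summable.of_nonneg_of_le (fun n => mul_nonneg (ha _) (by positivity)) hle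
      (hgeo.mul_left _)
  have hs : Summable fun n => a n * x ^ n := (summable_nat_add_iff N).1 hsN
  have hsum : ∑' n, a n * x ^ n ≤ C + e / (2 * x₀) * (1 - x / x₀)⁻¹ := by
    rw [← hs.sum_add_tsum_nat_add N, hC]
    apply add_le_add
    · apply Finset.sum_le_sum
      intro n _
      exact mul_le_mul_of_nonneg_left (pow_le_pow_left₀ hx0.le hxx'.le n) (ha n)
    · rw [← tsum_geometric_of_lt_one hq0 hq1, ← tsum_mul_left]
      exact hsN.tsum_le_tsum hle (hgeo.mul_left _)
  have hsum0 : 0 ≤ ∑' n, a n * x ^ n :=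
    tsum_nonneg fun n => mul_nonneg (ha n) (by positivity)
  rw [Real.dist_eq, sub_zero, abs_of_nonneg (mul_nonneg (by linarith) hsum0)]
  have hfin : (x₀ - x) * (C + e / (2 * x₀) * (1 - x / x₀)⁻¹) = (x₀ - x) * C + e / 2 := by
    have h4 : 1 - x / x₀ = (x₀ - x) / x₀ := by field_simp
    rw [h4, inv_div, mul_add]
    congr 1
    have h5 : x₀ - x ≠ 0 := by linarith
    field_simp
  have h6 : (x₀ - x) * C < e / 2 := by
    have h7 : x₀ - x < e / (2 * (C + 1)) := by linarith
    have h8 : (x₀ - x) * (C + 1) < e / 2 := by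
      rw [lt_div_iff₀ (by positivity)] at h7
      linarith
    nlinarith
  calc (x₀ - x) * ∑' n, a n * x ^ n ≤ (x₀ - x) * (C + e / (2 * x₀) * (1 - x / x₀)⁻¹) :=
        mul_le_mul_of_nonneg_left hsum (by linarith)
    _ = (x₀ - x) * C + e / 2 := hfin
    _ < e := by linarith

/-- numbers which are small compared with `√n t n` are small compared with `lam ^ n` -/
lemma small_of_o {u : ℕ → ℝ} (hu : ∀ n, 0 ≤ u n)
    (ho : Tendsto (fun n : ℕ => u n / (√(n : ℝ) * t n)) atTop (𝓝 0)) :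
    Tendsto (fun n : ℕ => u n * (1 / lam) ^ n) atTop (𝓝 0) := by
  have hl := lam_pos
  have h1 : Tendsto (fun n : ℕ => u n / (√(n : ℝ) * t n) * lam) atTop (𝓝 0) := by
    have := ho.mul_const lam
    rwa [zero_mul] at this
  refine squeeze_zero' (Eventually.of_forall fun n => mul_nonneg (hu n) (by positivity)) ?_ h1
  filter_upwards [eventually_ge_atTop 1] with n hn
  have hn' : (0 : ℝ) < n := by exact_mod_cast hn
  have ht : (0 : ℝ) < t n := by exact_mod_cast t_pos hn
  have hs : 0 < √(n : ℝ) := Real.sqrt_pos.2 hn'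
  have h2 : √(n : ℝ) * t n ≤ lam ^ (n + 1) := by
    refine le_trans ?_ (t_bound n)
    apply mul_le_mul_of_nonneg_right _ ht.le
    exact Real.sqrt_le_sqrt (by linarith)
  have h3 : u n = u n / (√(n : ℝ) * t n) * (√(n : ℝ) * t n) := by
    field_simp
  have h4 : 0 ≤ u n / (√(n : ℝ) * t n) := div_nonneg (hu n) (by positivity)
  calc u n * (1 / lam) ^ n = u n / (√(n : ℝ) * t n) * (√(n : ℝ) * t n) * (1 / lam) ^ n := by
        rw [← h3]
    _ ≤ u n / (√(n : ℝ) * t n) * lam ^ (n + 1) * (1 / lam) ^ n := by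
        apply mul_le_mul_of_nonneg_right _ (by positivity)
        exact mul_le_mul_of_nonneg_left h2 h4
    _ = u n / (√(n : ℝ) * t n) * lam := by
        rw [one_div, inv_pow, pow_succ]
        field_simp

/-- multiples of `t` are small compared with `√n t n` -/
lemma o_of_le {u : ℕ → ℝ} (hu : ∀ n, 0 ≤ u n) {C : ℝ} (hC : ∀ n, u n ≤ C * t n) :
    Tendsto (fun n : ℕ => u n / (√(n : ℝ) * t n)) atTop (𝓝 0) := by
  have h1 : Tendsto (fun n : ℕ => C / √(n : ℝ)) atTop (𝓝 0) := by
    apply Tendsto.div_atTop tendsto_const_nhds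
    exact Real.tendsto_sqrt_atTop.comp tendsto_natCast_atTop_atTop
  refine squeeze_zero' (Eventually.of_forall fun n => div_nonneg (hu n) (by positivity)) ?_ h1
  filter_upwards [eventually_ge_atTop 1] with n hn
  have hn' : (0 : ℝ) < n := by exact_mod_cast hn
  have ht : (0 : ℝ) < t n := by exact_mod_cast t_pos hn
  have hs : 0 < √(n : ℝ) := Real.sqrt_pos.2 hn'
  rw [div_le_div_iff₀ (by positivity) hs]
  calc u n * √(n : ℝ) ≤ C * t n * √(n : ℝ) := mul_le_mul_of_nonneg_right (hC n) hs.le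
    _ = C * (√(n : ℝ) * t n) := by ring

lemma class_summable {u : ℕ → ℝ} (hu : ∀ n, 0 ≤ u n)
    (hsmall : Tendsto (fun n : ℕ => u n * (1 / lam) ^ n) atTop (𝓝 0)) {x : ℝ}
    (hx : 0 ≤ x) (hxx : x < 1 / lam) : Summable fun n => u n * x ^ n := by
  have hl := lam_pos
  have hq0 : 0 ≤ lam * x := by positivity
  have hq1 : lam * x < 1 := by
    rw [lt_div_iff₀ hl] at hxx
    linarith
  obtain ⟨B, hB⟩ := hsmall.bddAbove_range
  apply Summable.of_nonneg_of_le (fun n => mul_nonneg (hu n) (by positivity)) _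
    ((summable_geometric_of_lt_one hq0 hq1).mul_left B)
  intro n
  have h1 : u n * (1 / lam) ^ n ≤ B := hB ⟨n, rfl⟩
  have h2 : u n * x ^ n = u n * (1 / lam) ^ n * (lam * x) ^ n := by
    rw [mul_pow, one_div, inv_pow]
    field_simp
  rw [h2]
  exact mul_le_mul_of_nonneg_right h1 (by positivity)

lemma class_summable' {u : ℕ → ℝ} (hu : ∀ n, 0 ≤ u n)
    (hsmall : Tendsto (fun n : ℕ => u n * (1 / lam) ^ n) atTop (𝓝 0)) {x : ℝ}
    (hx : 0 ≤ x) (hxx : x < 1 / lam) : Summable fun n => ‖(u n : ℂ) * (x : ℂ) ^ n‖ := by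
  refine (class_summable hu hsmall hx hxx).congr fun n => ?_
  rw [norm_mul, norm_pow, Complex.norm_real, Complex.norm_real, Real.norm_of_nonneg (hu n),
    Real.norm_of_nonneg hx]

/-- **Every class of polyominoes with the full growth constant.** -/
theorem class_no_mero {u : ℕ → ℝ} (hu : ∀ n, 0 ≤ u n)
    (hsmall : Tendsto (fun n : ℕ => u n * (1 / lam) ^ n) atTop (𝓝 0))
    (hg : ∀ μ : ℝ, 0 < μ → μ < lam → ∃ᶠ n in atTop, μ ^ n ≤ u n) {g : ℂ → ℂ}
    (hm : MeromorphicAt g ((1 / lam : ℝ) : ℂ)) :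
    ¬ ∀ᶠ x : ℝ in 𝓝[<] (1 / lam), HasSum (fun n => (u n : ℂ) * (x : ℂ) ^ n) (g x) := by
  have hl := lam_pos
  have hd : ∀ x : ℝ, 1 / lam < x → ¬ Summable fun n => u n * x ^ n := by
    intro x hx hsum
    have hx0 : 0 < x := lt_trans inv_lam_pos hx
    have h1 : 1 / x < lam := by
      rw [div_lt_iff₀ hx0]
      rw [div_lt_iff₀ hl] at hx
      linarith
    have h2 := hg (1 / x) (by positivity) h1
    have h3 := hsum.tendsto_atTop_zero
    have h4 : ∀ᶠ n in atTop, u n * x ^ n < 1 := h3.eventually (gt_mem_nhds (by norm_num))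
    obtain ⟨n, hn1, hn2⟩ := (h2.and_eventually h4).exists
    rw [one_div, inv_pow] at hn1
    have h5 : (0 : ℝ) < x ^ n := by positivity
    have h6 : (x ^ n)⁻¹ * x ^ n ≤ u n * x ^ n := mul_le_mul_of_nonneg_right hn1 h5.le
    rw [inv_mul_cancel₀ h5.ne'] at h6
    linarith
  have h0 : Tendsto (fun x : ℝ => (((1 / lam) - x : ℝ) : ℂ) * S u x) (𝓝[<] (1 / lam)) (𝓝 0) := by
    have h1 := tendsto_mul_S inv_lam_pos hu hsmall
    have h2 : Tendsto (fun x : ℝ => (((1 / lam - x) * ∑' n, u n * x ^ n : ℝ) : ℂ))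
        (𝓝[<] (1 / lam)) (𝓝 ((0 : ℝ) : ℂ)) := (Complex.continuous_ofReal.tendsto 0).comp h1
    rw [Complex.ofReal_zero] at h2
    refine h2.congr fun x => ?_
    unfold S
    push_cast
    rfl
  intro he
  apply no_mero inv_lam_pos hu (fun x hx hxx => class_summable hu hsmall hx hxx) hd h0 hm
  filter_upwards [he] with x hx
  exact hx.tsum_eq.symm

/-- the generating function of a class with the full growth constant is not a quotient of
polynomials on the interval of convergence -/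
theorem class_not_quot {u : ℕ → ℝ} (hu : ∀ n, 0 ≤ u n)
    (hsmall : Tendsto (fun n : ℕ => u n * (1 / lam) ^ n) atTop (𝓝 0))
    (hg : ∀ μ : ℝ, 0 < μ → μ < lam → ∃ᶠ n in atTop, μ ^ n ≤ u n) {P Q : Polynomial ℂ}
    (hQ : Q ≠ 0) (h : ∀ x : ℝ, 0 < x → x < 1 / lam →
      Q.eval (x : ℂ) * ∑' n, (u n : ℂ) * (x : ℂ) ^ n = P.eval (x : ℂ)) : False := by
  have hmP : MeromorphicAt (fun z : ℂ => P.eval z) ((1 / lam : ℝ) : ℂ) :=
    (P.differentiable.analyticAt _).meromorphicAt
  have hmQ : MeromorphicAt (fun z : ℂ => Q.eval z) ((1 / lam : ℝ) : ℂ) :=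
    (Q.differentiable.analyticAt _).meromorphicAt
  apply class_no_mero hu hsmall hg (hmP.div hmQ)
  have hroot : ∀ᶠ x : ℝ in 𝓝[<] (1 / lam), Q.eval (x : ℂ) ≠ 0 := by
    have hmap : Tendsto (fun x : ℝ => (x : ℂ)) (𝓝[<] (1 / lam)) (𝓝[≠] ((1 / lam : ℝ) : ℂ)) := by
      apply tendsto_nhdsWithin_of_tendsto_nhds_of_eventually_within
      · exact (Complex.continuous_ofReal.tendsto (1 / lam)).mono_left nhdsWithin_le_nhds
      · filter_upwards [self_mem_nhdsWithin] with x hx
        have : x ≠ 1 / lam := (mem_Iio.1 hx).ne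
        intro h
        exact this (Complex.ofReal_injective h)
    rcases (Q.differentiable.analyticAt ((1 / lam : ℝ) : ℂ)).eventually_eq_zero_or_eventually_ne_zero
      with h1 | h1
    · exfalso
      apply hQ
      apply Polynomial.eq_zero_of_infinite_isRoot
      obtain ⟨r, hr, h3⟩ := Metric.eventually_nhds_iff_ball.1 h1
      apply Set.Infinite.mono (s := ball (((1 / lam : ℝ) : ℂ)) r) h3
      exact infinite_of_mem_nhds _ (ball_mem_nhds _ hr)
    · exact hmap.eventually h1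
  have h3 : ∀ᶠ x : ℝ in 𝓝[<] (1 / lam), 0 < x :=
    mem_nhdsWithin_of_mem_nhds (lt_mem_nhds inv_lam_pos)
  filter_upwards [hroot, h3, self_mem_nhdsWithin] with x hx hx0 hxx
  have h5 := (class_summable' hu hsmall hx0.le hxx).of_norm.hasSum
  rw [Pi.div_apply, ← h x hx0 hxx, mul_div_cancel_left₀ _ hx]
  exact h5

/-- the generating function of a class with the full growth constant is not rational -/
theorem class_not_rat {u : ℕ → ℝ} (hu : ∀ n, 0 ≤ u n)
    (hsmall : Tendsto (fun n : ℕ => u n * (1 / lam) ^ n) atTop (𝓝 0))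
    (hg : ∀ μ : ℝ, 0 < μ → μ < lam → ∃ᶠ n in atTop, μ ^ n ≤ u n) :
    ¬ ∃ P Q : Polynomial ℂ, Q ≠ 0 ∧
      (Q : PowerSeries ℂ) * PowerSeries.mk (fun n => (u n : ℂ)) = P := by
  rintro ⟨P, Q, hQ, h⟩
  apply class_not_quot hu hsmall hg (P := P) (Q := Q) hQ
  intro x hx0 hxx
  exact rat_eval h (class_summable' hu hsmall hx0.le hxx)

/-- for `μ < lam` eventually `μ ^ n ≤ t n` -/
lemma t_large {μ : ℝ} (h0 : 0 < μ) (h : μ < lam) : ∀ᶠ n in atTop, μ ^ n ≤ t n := by
  have h1 : ∀ᶠ n : ℕ in atTop, μ < (t n : ℝ) ^ ((1 : ℝ) / n) := tendsto_lam.eventually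
    (lt_mem_nhds h)
  filter_upwards [h1, eventually_ge_atTop 1] with n hn hn1
  have h2 : ((t n : ℝ) ^ ((1 : ℝ) / n)) ^ n = t n := by
    rw [one_div]
    exact Real.rpow_inv_natCast_pow (Nat.cast_nonneg _) (by omega)
  rw [← h2]
  exact pow_le_pow_left₀ h0.le hn.le n

/-- the numbers `t (m n + r)` do not have a rational generating function -/
theorem section_not_rat {m : ℕ} (hm : 1 ≤ m) (r : ℕ) :
    ¬ ∃ P Q : Polynomial ℂ, Q ≠ 0 ∧
      (Q : PowerSeries ℂ) * PowerSeries.mk (fun n => (t (m * n + r) : ℂ)) = P := by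
  classical
  rintro ⟨P, Q, hQ, h⟩
  set i : ℕ → ℕ := fun n => m * n + r with hi
  have hinj : Function.Injective i := by
    intro a b hab
    rw [hi] at hab
    simp only at hab
    have : m * a = m * b := by omega
    exact Nat.eq_of_mul_eq_mul_left hm this
  set u : ℕ → ℝ := fun k => if k ∈ range i then (t k : ℝ) else 0 with hu
  have hu0 : ∀ n, 0 ≤ u n := by
    intro n
    rw [hu]
    simp only
    split_ifs
    · positivity
    · exact le_rfl
  have huC : ∀ n, u n ≤ 1 * t n := by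
    intro n
    rw [hu, one_mul]
    simp only
    split_ifs
    · exact le_rfl
    · positivity
  have hsmall := small_of_o hu0 (o_of_le hu0 huC)
  have hug : ∀ μ : ℝ, 0 < μ → μ < lam → ∃ᶠ n in atTop, μ ^ n ≤ u n := by
    intro μ h0 h1
    have h2 : Tendsto i atTop atTop := hinj.nat_tendsto_atTop
    apply h2.frequently
    apply Eventually.frequently
    filter_upwards [h2.eventually (t_large h0 h1)] with n hn
    rw [hu]
    simp only
    rw [if_pos (mem_range_self n)]
    exact hn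
  apply class_not_quot hu0 hsmall hug (P := Polynomial.X ^ r * Polynomial.expand ℂ m P)
    (Q := Polynomial.expand ℂ m Q)
  · exact (Polynomial.expand_ne_zero (by omega)).2 hQ
  · intro x hx0 hxx
    have hx0' : (x : ℂ) ≠ 0 := by exact_mod_cast hx0.ne'
    rw [Polynomial.expand_eval, Polynomial.eval_mul, Polynomial.expand_eval, Polynomial.eval_pow,
      Polynomial.eval_X]
    have hsum := class_summable' hu0 hsmall hx0.le hxx
    have e0 : ∀ n, (u (i n) : ℂ) * (x : ℂ) ^ (i n) =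
        (x : ℂ) ^ r * ((t (m * n + r) : ℂ) * ((x : ℂ) ^ m) ^ n) := by
      intro n
      rw [hu]
      simp only
      rw [if_pos (mem_range_self n), hi]
      simp only
      rw [pow_add, pow_mul]
      push_cast
      ring
    have hsum2 : Summable fun n => ‖(t (m * n + r) : ℂ) * ((x : ℂ) ^ m) ^ n‖ := by
      have h1 := hsum.comp_injective hinj
      have h2 : Summable fun n => ‖(x : ℂ) ^ r * ((t (m * n + r) : ℂ) * ((x : ℂ) ^ m) ^ n)‖ := by
        refine h1.congr fun n => ?_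
        rw [Function.comp_apply, e0]
      have h3 := h2.mul_left (‖(x : ℂ) ^ r‖⁻¹)
      refine h3.congr fun n => ?_
      rw [norm_mul ((x : ℂ) ^ r), ← mul_assoc, inv_mul_cancel₀, one_mul]
      exact norm_ne_zero_iff.2 (pow_ne_zero _ hx0')
    have h1 := rat_eval h hsum2
    have h2 : ∑' n, (u n : ℂ) * (x : ℂ) ^ n =
        (x : ℂ) ^ r * ∑' n, (t (m * n + r) : ℂ) * ((x : ℂ) ^ m) ^ n := by
      rw [← tsum_mul_left, ← hinj.tsum_eq (f := fun n => (u n : ℂ) * (x : ℂ) ^ n)]
      · exact tsum_congr e0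
      · intro k hk
        by_contra hcon
        apply hk
        simp only
        rw [hu]
        simp only
        rw [if_neg hcon]
        simp
    rw [h2, ← h1]
    ring

end Pool.Agent.Helper34.PG
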